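import Pool.Agent.Y885.MU6
import Pool.Agent.Q21.CL.Len

/-!
# Products of `h` consecutive values of the Liouville function, where the length `h` is a random sum with up to two
fifths of the scales missing

Used from the starting files: the correlations with random sums (`Pool.Agent.Y885.rs_fine`, `fine_lam`), and the
pairing of neighbouring products (`Pool.Agent.TH893.CL.twist_le`).

Definitions used (in `Pool.Agent.Q21.CL`): `lam n`: the Liouville function; `prodL a β h n`: the product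
`λ(a n + β) λ(a (n + 1) + β) ... λ(a (n + h - 1) + β)`; `Good a β M R ξ h`: for all `l` and all `Y ≤ X ≤ M`, the sum of
`ξ l n * prodL a β h n` over `Y < n ≤ X` is at most `(X - Y) / 2 + R` in absolute value, and the sum of
`ξ l n * λ(a (n + h) + β)` is at most `R`.
-/

set_option autoImplicit false

namespace Pool.Agent.Results.MP_a14ce1_nt.RandomSumLengths

open Finset Pool.Agent.Q21.CL

/-- The set `J` of scales below `k` is rich: it contains more than three fifths of all the scales, more than one half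
of the `m` lowest scales, and a positive proportion of the `m` highest scales (the last two conditions are
void for `m ≤ D log k`). -/
structure Rich (δ : ℝ) (D k : ℕ) (J : Finset ℕ) : Prop where
  lt : ∀ j ∈ J, j < k
  all : (3 / 5 + δ) * k ≤ (J.card : ℝ)
  low : ∀ m ≤ k, (1 / 2 + δ) * m ≤ ((J.filter fun j => j < m).card : ℝ) + D * Real.log k
  high : ∀ m ≤ k, δ * m ≤ ((J.filter fun j => k - m ≤ j).card : ℝ) + D * Real.log k

open Classical in
/-- The probability of the event `E` if `x 0, ..., x (k - 1)` are independent random integers, where `x j` takes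
its values in the finite set `s j`, and the value `v` with the probability `p j v`. -/
noncomputable def Prob (k : ℕ) (s : ℕ → Finset ℤ) (p : ℕ → ℤ → ℝ) (E : (Fin k → ℤ) → Prop) : ℝ :=
  ∑ x ∈ Fintype.piFinset (fun j : Fin k => s j), if E x then ∏ j : Fin k, p j (x j) else 0

/-- union bound -/
lemma prob_union (k : ℕ) (s : ℕ → Finset ℤ) (p : ℕ → ℤ → ℝ) (hp : ∀ j < k, ∀ x ∈ s j, 0 ≤ p j x)
    (T : Finset ℤ) (E : (Fin k → ℤ) → Prop) (G : ℤ → (Fin k → ℤ) → Prop)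
    (hEG : ∀ x, E x → ∃ w ∈ T, G w x) : Prob k s p E ≤ ∑ w ∈ T, Prob k s p (G w) := by
  classical
  unfold Prob
  rw [sum_comm]
  apply sum_le_sum
  intro x hx
  rw [Fintype.mem_piFinset] at hx
  have h0 : 0 ≤ ∏ j : Fin k, p j (x j) := prod_nonneg fun j _ => hp j j.2 _ (hx j)
  have h1 : ∀ w ∈ T, 0 ≤ (if G w x then ∏ j : Fin k, p j (x j) else 0) := by
    intro w _
    split_ifs
    · exact h0
    · exact le_rfl
  by_cases hE : E x
  · obtain ⟨w, hw, hG⟩ := hEG x hE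
    rw [if_pos hE]
    have h2 := single_le_sum (f := fun w => if G w x then ∏ j : Fin k, p j (x j) else 0) h1 hw
    simp only [if_pos hG] at h2
    refine h2.trans (le_of_eq ?_)
    apply sum_congr rfl
    intro w _
    congr
  · rw [if_neg hE]
    refine (sum_nonneg h1).trans (le_of_eq ?_)
    apply sum_congr rfl
    intro w _
    congr

open Pool.Agent.H373R2.T7 in
/-- the correlations along a progression with a random shift -/
lemma base (b a B D κ U : ℕ) (hb : 2 ≤ b) (ha : 1 ≤ a) (hB : 1 ≤ B) (η δ : ℝ) (hη : 0 < η) (hδ : 0 < δ) :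
    ∃ k₀ : ℕ, ∀ k : ℕ, k₀ ≤ k → ∀ J : Finset ℕ, Rich δ D k J →
      ∀ (s : ℕ → Finset ℤ) (p : ℕ → ℤ → ℝ),
      (∀ j < k, (∀ x ∈ s j, 0 ≤ p j x ∧ |x| ≤ (B : ℤ) * (b : ℤ) ^ j) ∧ ∑ x ∈ s j, p j x = 1) →
      (∀ j ∈ J, ∀ y : ℤ, ∑ x ∈ (s j).filter (fun x => y ≤ x ∧ (B : ℤ) * (x - y) ≤ (b : ℤ) ^ j), p j x ≤ 1 - η) →
      ∀ c : ℤ, |c| ≤ (B : ℤ) * (b : ℤ) ^ k → ∀ β : ℕ, β ≤ B * b ^ k →
      ∀ L : ℕ, L ≤ k ^ κ → ∀ g : Fin L → ℕ → ℂ, (∀ l n, ‖g l n‖ ≤ 1) →
        Prob k s p (fun x => ¬ ∀ l, ∀ N : ℕ, N ≤ B * b ^ k →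
          ‖∑ n ∈ Icc 1 N, g l n * exI (fun n => ((Pool.Agent.Y885.laR n : ℝ) : ℂ))
            (((a * n : ℕ) : ℤ) + (((β : ℤ) + a * c) + ∑ j, (a : ℤ) * x j))‖ ≤ (b : ℝ) ^ k / (k : ℝ) ^ U) ≤
          1 / (k : ℝ) ^ U := by
  classical
  obtain ⟨k₀, h0⟩ := Pool.Agent.Y885.rs_fine b ((a + 1) * B) D κ U hb (Nat.mul_pos (by omega) hB) η δ hη hδ
    Pool.Agent.Y885.laR Pool.Agent.Y885.fine_lam
  refine ⟨k₀ + 1, fun k hk J hJ s p hs hp c hc β hβ L hL g hg => ?_⟩
  have hk1 : (1 : ℝ) ≤ (k : ℝ) ^ κ := one_le_pow₀ (by exact_mod_cast (by omega : 1 ≤ k))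
  have haz : (1 : ℤ) ≤ a := by exact_mod_cast ha
  have ha0 : (a : ℤ) ≠ 0 := by omega
  have hBz : (1 : ℤ) ≤ B := by exact_mod_cast hB
  have hbz : (2 : ℤ) ≤ b := by exact_mod_cast hb
  have hinj : Function.Injective (fun x : ℤ => (a : ℤ) * x) := fun x y h => mul_left_cancel₀ ha0 h
  have hdiv : ∀ x : ℤ, (a : ℤ) * x / a = x := fun x => Int.mul_ediv_cancel_left x ha0
  obtain ⟨s', hs'⟩ : ∃ s' : ℕ → Finset ℤ, s' = fun j => (s j).image (fun x => (a : ℤ) * x) := ⟨_, rfl⟩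
  obtain ⟨p', hp'⟩ : ∃ p' : ℕ → ℤ → ℝ, p' = fun j x => p j (x / a) := ⟨_, rfl⟩
  have hpv : ∀ j x, p' j ((a : ℤ) * x) = p j x := by
    intro j x
    rw [hp']
    simp only [hdiv]
  have H := h0 k (by omega) J s' p' ((β : ℤ) + a * c) ⟨hJ.lt, hJ.low, hJ.high, hJ.all⟩ ?_ ?_ ?_ L hL (fun _ => a) g
    (fun _ => ha) (fun l n _ _ => (hg l n).trans hk1)
    (fun ω => ¬ ∀ l, ∀ N : ℕ, N ≤ B * b ^ k →
          ‖∑ n ∈ Icc 1 N, g l n * exI (fun n => ((Pool.Agent.Y885.laR n : ℝ) : ℂ))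
            (((a * n : ℕ) : ℤ) + (((β : ℤ) + a * c) + ∑ j, ω j))‖ ≤ (b : ℝ) ^ k / (k : ℝ) ^ U) (Classical.decPred _) ?_
  · refine le_trans (le_of_eq ?_) H
    unfold Prob
    refine sum_nbij' (fun x j => (a : ℤ) * x j) (fun ω j => ω j / a) ?_ ?_ ?_ ?_ ?_
    · intro x hx
      rw [Fintype.mem_piFinset] at hx ⊢
      intro j
      rw [hs']
      exact mem_image_of_mem _ (hx j)
    · intro ω hω
      rw [Fintype.mem_piFinset] at hω ⊢
      intro j
      have h1 := hω j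
      rw [hs'] at h1
      obtain ⟨x, hx, hx2⟩ := mem_image.1 h1
      rw [← hx2, hdiv]
      exact hx
    · intro x _
      ext j
      exact hdiv _
    · intro ω hω
      rw [Fintype.mem_piFinset] at hω
      ext j
      have h1 := hω j
      rw [hs'] at h1
      obtain ⟨x, hx, hx2⟩ := mem_image.1 h1
      show (a : ℤ) * (ω j / a) = ω j
      rw [← hx2]
      show (a : ℤ) * (a * x / a) = a * x
      rw [hdiv]
    · intro x _
      simp only [hpv]
      congr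
  · intro j hj
    constructor
    · intro x hx
      rw [hs'] at hx
      obtain ⟨y, hy, rfl⟩ := mem_image.1 hx
      refine ⟨?_, ?_⟩
      · rw [hpv]
        exact ((hs j hj).1 y hy).1
      · rw [abs_mul, abs_of_nonneg (by omega : (0 : ℤ) ≤ a)]
        have h1 := ((hs j hj).1 y hy).2
        push_cast
        calc (a : ℤ) * |y| ≤ a * (B * (b : ℤ) ^ j) := mul_le_mul_of_nonneg_left h1 (by omega)
          _ ≤ a * (B * (b : ℤ) ^ j) + B * (b : ℤ) ^ j := by
              have : (0 : ℤ) ≤ B * (b : ℤ) ^ j := by positivity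
              linarith
          _ = _ := by ring
    · rw [hs', sum_image (fun x _ y _ h => hinj h)]
      simp only [hpv]
      exact (hs j hj).2
  · intro j hj y
    obtain ⟨y0, hy0⟩ : ∃ y0 : ℤ, y0 = -((-y) / a) := ⟨_, rfl⟩
    have hapos : (0 : ℤ) < a := by omega
    have g1 : y ≤ a * y0 := by
      have := Int.ediv_mul_le (-y) ha0
      rw [hy0]
      linarith
    have g2 : ∀ x : ℤ, y ≤ a * x → y0 ≤ x := by
      intro x hx
      have h3 : (-x) ≤ (-y) / a := by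
        rw [Int.le_ediv_iff_mul_le hapos]
        linarith
      rw [hy0]
      linarith
    have g3 := hp j hj y0
    refine le_trans ?_ g3
    rw [hs', filter_image, sum_image (fun x _ y _ h => hinj h)]
    simp only [hpv]
    apply sum_le_sum_of_subset_of_nonneg
    · intro x hx
      rw [mem_filter] at hx ⊢
      obtain ⟨hx1, hx2, hx3⟩ := hx
      have h4 := g2 x hx2
      refine ⟨hx1, h4, ?_⟩
      have h5 : (B : ℤ) * (x - y0) ≤ (((a + 1) * B : ℕ) : ℤ) * ((a : ℤ) * x - y) := by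
        have h6 : (x - y0) ≤ (a : ℤ) * x - y := by nlinarith
        have h7 : (B : ℤ) ≤ (((a + 1) * B : ℕ) : ℤ) := by
          push_cast
          nlinarith
        calc (B : ℤ) * (x - y0) ≤ (((a + 1) * B : ℕ) : ℤ) * (x - y0) :=
              mul_le_mul_of_nonneg_right h7 (by linarith)
          _ ≤ _ := mul_le_mul_of_nonneg_left h6 (by positivity)
      exact h5.trans hx3
    · intro x hx _
      rw [mem_filter] at hx
      exact ((hs j (hJ.lt j hj)).1 x hx.1).1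
  · have h1 := abs_le.1 hc
    have h2 : (β : ℤ) ≤ B * (b : ℤ) ^ k := by exact_mod_cast hβ
    have h3 : (0 : ℤ) ≤ β := Nat.cast_nonneg _
    have h4 : (a : ℤ) * c ≤ a * (B * (b : ℤ) ^ k) := mul_le_mul_of_nonneg_left h1.2 (by omega)
    have h5 : (a : ℤ) * (-(B * (b : ℤ) ^ k)) ≤ a * c := mul_le_mul_of_nonneg_left h1.1 (by omega)
    have h6 : (0 : ℤ) ≤ B * (b : ℤ) ^ k := by positivity
    rw [abs_le]
    push_cast
    constructor <;> nlinarith
  · intro ω hω hcon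
    apply hω
    intro l N hN
    exact hcon l N (by
      calc a * N ≤ a * (B * b ^ k) := Nat.mul_le_mul_left _ hN
        _ ≤ (a + 1) * (B * b ^ k) := Nat.mul_le_mul_right _ (by omega)
        _ = _ := by ring)

lemma pow_small (b A : ℕ) (hb : 2 ≤ b) : ∃ k₀ : ℕ, ∀ k : ℕ, k₀ ≤ k → k ^ A ≤ b ^ k := by
  have h1 := tendsto_pow_const_div_const_pow_of_one_lt A (by exact_mod_cast (by omega : 1 < b) : (1 : ℝ) < b)
  have h2 := h1.eventually (gt_mem_nhds (by norm_num : (0 : ℝ) < 1))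
  obtain ⟨k₀, h3⟩ := Filter.eventually_atTop.1 h2
  refine ⟨k₀, fun k hk => ?_⟩
  have h4 := h3 k hk
  have hb0 : (0 : ℝ) < (b : ℝ) ^ k := by
    have : (0 : ℝ) < b := by exact_mod_cast (by omega : 0 < b)
    positivity
  rw [div_lt_one hb0] at h4
  exact_mod_cast h4.le

/-- Let `a ≥ 1`, `b ≥ 2`, `B ≥ 1`, `D`, `A`, `κ`, `U`, `η > 0` and `δ > 0` be fixed, let `k` be large, and let `J` be an
arbitrary rich set of scales below `k`. Let `x 0, ..., x (k - 1)` be arbitrary independent random integers with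
`|x j| ≤ B b ^ j` such that, for all `j` in `J`, no interval of the length `b ^ j / B` contains `x j` with a
probability larger than `1 - η` (nothing is assumed for the other `j`: these `x j` may be constants). Let `c` be an
arbitrary integer with `|c| ≤ B b ^ k`, let `β ≤ B b ^ k`, and let at most `k ^ κ` systems of weights `ξ l` with
`|ξ l n| ≤ 1` be given. Then, with a probability of at least `1 - 1 / k ^ U`, ALL the positive integers `h` at a
distance of at most `k ^ A` from the random sum `c + x 0 + ... + x (k - 1)` satisfy, for all `l` and all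
`Y ≤ X ≤ B b ^ k`,
`|∑_{Y < n ≤ X} ξ l n · λ(a n + β) λ(a (n + 1) + β) ... λ(a (n + h - 1) + β)| ≤ (X - Y) / 2 + b ^ k / k ^ U` and
`|∑_{Y < n ≤ X} ξ l n · λ(a (n + h) + β)| ≤ b ^ k / k ^ U`. (In the second sum, `ξ l` may be the product of any
number of consecutive values of `λ`.) -/
theorem result (b a B D A κ U : ℕ) (hb : 2 ≤ b) (ha : 1 ≤ a) (hB : 1 ≤ B) (η δ : ℝ) (hη : 0 < η) (hδ : 0 < δ) :
    ∃ k₀ : ℕ, ∀ k : ℕ, k₀ ≤ k → ∀ J : Finset ℕ, Rich δ D k J →
      ∀ (s : ℕ → Finset ℤ) (p : ℕ → ℤ → ℝ),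
      (∀ j < k, (∀ x ∈ s j, 0 ≤ p j x ∧ |x| ≤ (B : ℤ) * (b : ℤ) ^ j) ∧ ∑ x ∈ s j, p j x = 1) →
      (∀ j ∈ J, ∀ y : ℤ, ∑ x ∈ (s j).filter (fun x => y ≤ x ∧ (B : ℤ) * (x - y) ≤ (b : ℤ) ^ j), p j x ≤ 1 - η) →
      ∀ c : ℤ, |c| ≤ (B : ℤ) * (b : ℤ) ^ k → ∀ β : ℕ, β ≤ B * b ^ k →
      ∀ L : ℕ, L ≤ k ^ κ → ∀ ξ : Fin L → ℕ → ℂ, (∀ l n, ‖ξ l n‖ ≤ 1) →
        Prob k s p (fun x => ¬ ∀ h : ℕ, 0 < h → |(h : ℤ) - (c + ∑ j, x j)| ≤ (k : ℤ) ^ A →
          Good a β (B * b ^ k) ((b : ℝ) ^ k / (k : ℝ) ^ U) ξ h) ≤ 1 / (k : ℝ) ^ U := by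
  classical
  obtain ⟨k₀, h0⟩ := base b a (B + 1) D (κ + 3) (U + A + 4) hb ha (by omega) η δ hη hδ
  obtain ⟨k₁, hk₁⟩ := pow_small b A hb
  obtain ⟨k₂, hk₂⟩ := pow_small b (U + 1) hb
  refine ⟨k₀ + k₁ + k₂ + 10, fun k hk J hJ s p hs hp c hc β hβ L hL ξ hξ => ?_⟩
  have hkA := hk₁ k (by omega)
  have hkU := hk₂ k (by omega)
  have hk10 : 10 ≤ k := by omega
  have hkr : (10 : ℝ) ≤ k := by exact_mod_cast hk10
  have hk1 : (1 : ℝ) ≤ k := by linarith
  have hk0 : (0 : ℝ) < k := by linarith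
  have hbk0 : (0 : ℝ) < (b : ℝ) ^ k := by
    have : (0 : ℝ) < b := by exact_mod_cast (by omega : 0 < b)
    positivity
  have hbkz : (0 : ℤ) < (b : ℤ) ^ k := by
    have : (0 : ℤ) < b := by exact_mod_cast (by omega : 0 < b)
    positivity
  obtain ⟨g, hg⟩ : ∃ g : Fin (5 * L) → ℕ → ℂ, g = fun q : Fin (5 * L) => sys a β ξ q.1 := ⟨_, rfl⟩
  have hg1 : ∀ q n, ‖g q n‖ ≤ 1 := by
    intro q n
    rw [hg]
    exact sys_norm a β ξ hξ _ _
  have hla : (fun n => ((Pool.Agent.Y885.laR n : ℝ) : ℂ)) = Pool.Agent.H373R2.T7.liR := by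
    ext n
    unfold Pool.Agent.Y885.laR Pool.Agent.H373R2.T7.liR
    push_cast
    rfl
  have hL5 : 5 * L ≤ k ^ (κ + 3) := by
    calc 5 * L ≤ k * k ^ κ := Nat.mul_le_mul (by omega) hL
      _ = k ^ (κ + 1) := by rw [pow_succ]; ring
      _ ≤ k ^ (κ + 3) := Nat.pow_le_pow_right (by omega) (by omega)
  -- the events
  obtain ⟨G, hG⟩ : ∃ G : ℤ → (Fin k → ℤ) → Prop, G = fun w x => ¬ ∀ l, ∀ N : ℕ, N ≤ (B + 1) * b ^ k →
          ‖∑ n ∈ Icc 1 N, g l n * Pool.Agent.H373R2.T7.exI (fun n => ((Pool.Agent.Y885.laR n : ℝ) : ℂ))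
            (((a * n : ℕ) : ℤ) + (((β : ℤ) + a * (c + w)) + ∑ j, (a : ℤ) * x j))‖ ≤
              (b : ℝ) ^ k / (k : ℝ) ^ (U + A + 4) := ⟨_, rfl⟩
  have hGw : ∀ w ∈ Icc (-((k ^ A : ℕ) : ℤ)) ((k ^ A : ℕ) : ℤ), Prob k s p (G w) ≤ 1 / (k : ℝ) ^ (U + A + 4) := by
    intro w hw
    rw [mem_Icc] at hw
    rw [hG]
    refine h0 k (by omega) J hJ s p ?_ ?_ (c + w) ?_ β ?_ (5 * L) hL5 g hg1
    · intro j hj
      refine ⟨fun x hx => ⟨((hs j hj).1 x hx).1, ((hs j hj).1 x hx).2.trans ?_⟩, (hs j hj).2⟩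
      have : (0 : ℤ) ≤ (b : ℤ) ^ j := by positivity
      push_cast
      linarith
    · intro j hj y
      refine le_trans ?_ (hp j hj y)
      apply sum_le_sum_of_subset_of_nonneg
      · intro x hx
        rw [mem_filter] at hx ⊢
        refine ⟨hx.1, hx.2.1, ?_⟩
        have h1 := hx.2.2
        push_cast at h1
        nlinarith [hx.2.1]
      · intro x hx _
        rw [mem_filter] at hx
        exact ((hs j (hJ.lt j hj)).1 x hx.1).1
    · have h1 := abs_le.1 hc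
      have h2 : ((k ^ A : ℕ) : ℤ) ≤ (b : ℤ) ^ k := by exact_mod_cast hkA
      rw [abs_le]
      push_cast at hw h2 ⊢
      constructor <;> linarith [h1.1, h1.2, hw.1, hw.2]
    · exact hβ.trans (Nat.mul_le_mul_right _ (by omega))
  have hun := prob_union k s p (fun j hj x hx => ((hs j hj).1 x hx).1) (Icc (-((k ^ A : ℕ) : ℤ)) ((k ^ A : ℕ) : ℤ))
    (fun x => ¬ ∀ h : ℕ, 0 < h → |(h : ℤ) - (c + ∑ j, x j)| ≤ (k : ℤ) ^ A →
          Good a β (B * b ^ k) ((b : ℝ) ^ k / (k : ℝ) ^ U) ξ h) G ?_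
  · refine hun.trans ((sum_le_sum hGw).trans ?_)
    rw [sum_const, nsmul_eq_mul, Int.card_Icc]
    have h1 : (((((k ^ A : ℕ) : ℤ) + 1 - -((k ^ A : ℕ) : ℤ)).toNat : ℕ) : ℝ) = 2 * (k : ℝ) ^ A + 1 := by
      have h2 : (((k ^ A : ℕ) : ℤ) + 1 - -((k ^ A : ℕ) : ℤ)).toNat = 2 * k ^ A + 1 := by omega
      rw [h2]
      push_cast
      rfl
    rw [h1, mul_one_div, div_le_div_iff₀ (by positivity) (by positivity), one_mul]
    have hA1 : (1 : ℝ) ≤ (k : ℝ) ^ A := one_le_pow₀ hk1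
    calc (2 * (k : ℝ) ^ A + 1) * (k : ℝ) ^ U ≤ (k * (k : ℝ) ^ A) * (k : ℝ) ^ U := by
          apply mul_le_mul_of_nonneg_right _ (by positivity)
          nlinarith
      _ = (k : ℝ) ^ (U + A + 1) := by ring
      _ ≤ (k : ℝ) ^ (U + A + 4) := pow_le_pow_right₀ hk1 (by omega)
  · intro x hx
    by_contra hcon
    push Not at hcon
    apply hx
    intro h hh hdist
    obtain ⟨w, hw⟩ : ∃ w : ℤ, w = (h : ℤ) - (c + ∑ j, x j) := ⟨_, rfl⟩
    rw [← hw] at hdist
    have hwm : w ∈ Icc (-((k ^ A : ℕ) : ℤ)) ((k ^ A : ℕ) : ℤ) := by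
      rw [mem_Icc]
      have := abs_le.1 hdist
      push_cast
      exact this
    have h1 := hcon w hwm
    rw [hG] at h1
    simp only [not_not] at h1
    have hU1 : (b : ℝ) ^ k / (k : ℝ) ^ (U + A + 4) ≤ (b : ℝ) ^ k / (k : ℝ) ^ U / 10 := by
      rw [show U + A + 4 = U + (A + 4) by ring, pow_add, ← div_div]
      apply div_le_div_of_nonneg_left (by positivity) (by norm_num)
      calc (10 : ℝ) ≤ k := hkr
        _ = (k : ℝ) ^ 1 := (pow_one _).symm
        _ ≤ (k : ℝ) ^ (A + 4) := pow_le_pow_right₀ hk1 (by omega)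
    have hU2 : (10 : ℝ) ≤ (b : ℝ) ^ k / (k : ℝ) ^ U := by
      rw [le_div_iff₀ (by positivity)]
      have h2 : (k : ℝ) ^ (U + 1) ≤ (b : ℝ) ^ k := by exact_mod_cast hkU
      rw [pow_succ] at h2
      have h3 : (0 : ℝ) < (k : ℝ) ^ U := by positivity
      nlinarith
    refine good_of a β (B * b ^ k) ha ξ hξ h hh _ ((b : ℝ) ^ k / (k : ℝ) ^ (U + A + 4)) (by positivity)
      (by linarith) ?_
    intro q hq Z hZ
    have h2 := h1 ⟨q, hq⟩ Z (hZ.trans (Nat.mul_le_mul_right _ (by omega)))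
    rw [hg, hla] at h2
    have e1 : ((β : ℤ) + a * (c + w)) + ∑ j, (a : ℤ) * x j = (β : ℤ) + a * h := by
      rw [← mul_sum, hw]
      ring
    rw [e1] at h2
    exact h2

end Pool.Agent.Results.MP_a14ce1_nt.RandomSumLengths
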